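import Pool.Agent.Helper73.OB.GoalsA

/-!
Project OB (MP_fc0446_an): packet LOCB, locality of the bits.
-/

set_option autoImplicit false

open MeasureTheory

namespace Pool.Agent.Helper58.OB

open _root_.Pool.Agent.Helper73.OB

section Nat

variable {S X Y : Type} {p : Bit → S} {δ : Bit} {f : S → X → X} {g : S → Y → Y} {π : X → Y}

theorem kfar_nat (h : ∀ s x, π (f s x) = g s (π x)) (M : Y → Bool) (x : X) (z : Bit) :
    kfar p δ g M (π x) z = kfar p δ f (fun y ↦ M (π y)) x z := by
  unfold kfar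
  congr 1
  ext k
  simp only [Set.mem_ofPred_eq, run_equivariant h]

theorem pfar_nat (h : ∀ s x, π (f s x) = g s (π x)) (M : Y → Bool) (x : X) (z : Bit) :
    pfar p δ g M (π x) z = π (pfar p δ f (fun y ↦ M (π y)) x z) := by
  unfold pfar
  rw [kfar_nat h, run_equivariant h]

theorem bitAt_nat (h : ∀ s x, π (f s x) = g s (π x)) (M : Y → Bool) (V : Y → unitInterval)
    (o : Y → Bit → Bit) (x : X) (z : Bit) :
    bitAt p δ g M V o (π x) z =
      bitAt p δ f (fun y ↦ M (π y)) (fun y ↦ V (π y)) (fun y ↦ o (π y)) x z := by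
  unfold bitAt pnear snear knear sfar
  simp only [kfar_nat h, pfar_nat h]
  by_cases hM : M (π x) = true
  · simp only [hM, if_true]
  · simp only [hM, Bool.false_eq_true, if_false]

theorem snear_nat (h : ∀ s x, π (f s x) = g s (π x)) (M : Y → Bool) (x : X) (z : Bit) :
    snear p δ g M (π x) z = snear p δ f (fun y ↦ M (π y)) x z := by
  unfold snear sfar
  rw [kfar_nat h]

end Nat

section Tree

variable {S L : Type} {β : S → S}

/-- The Cayley graph: right multiplication. -/
noncomputable def rm (β : S → S) (s : S) (w : RW β) : RW β := ⟨red β (w.1 ++ [s]), red_Red β _⟩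

theorem red_left (hβ : ∀ s, β (β s) = s) (u v : List S) :
    red β (red β u ++ v) = red β (u ++ v) := by
  induction u with
  | nil => rfl
  | cons a u ih =>
    rw [List.cons_append, red_cons, red_cons, ← ih]
    generalize red β u = r
    unfold ls
    by_cases h : r.head? = some (β a)
    · rw [if_pos h]
      cases r with
      | nil => simp at h
      | cons b r =>
        have hb : b = β a := by simpa using h
        subst hb
        rw [List.tail_cons, List.cons_append, red_cons]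
        have h2 := ls_ls hβ (β a) (red_Red β (r ++ v))
        rw [hβ] at h2
        exact h2.symm
    · rw [if_neg h, List.cons_append, red_cons]
      rfl

theorem rm_inv (hβ : ∀ s, β (β s) = s) (s : S) (w : RW β) : rm β (β s) (rm β s w) = w := by
  apply Subtype.ext
  show red β (red β (w.1 ++ [s]) ++ [β s]) = w.1
  rw [red_left hβ, List.append_assoc, List.singleton_append, red_append, red_cancel' hβ, red_nil,
    List.append_nil, red_of_Red w.2]

theorem run_rm (hβ : ∀ s, β (β s) = s) (u : List S) (w : RW β) :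
    (run (rm β) u w).1 = red β (w.1 ++ u) := by
  induction u generalizing w with
  | nil => rw [run_nil, List.append_nil, red_of_Red w.2]
  | cons a u ih =>
    rw [run_cons, ih]
    show red β (red β (w.1 ++ [a]) ++ u) = _
    rw [red_left hβ, List.append_assoc, List.singleton_append]

/-- The point of the model at a word. -/
noncomputable def pt (ω : RW β → L) (w : RW β) : RW β → L := run (shiftR β) w.1 ω

theorem pt_rm (hβ : ∀ s, β (β s) = s) (ω : RW β → L) (s : S) (w : RW β) :
    pt ω (rm β s w) = shiftR β s (pt ω w) := by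
  show run (shiftR β) (red β (w.1 ++ [s])) ω = _
  rw [run_red (fun s x ↦ shiftR_inv hβ s x), run_append]
  rfl

theorem pt_root (ω : RW β → L) (w : RW β) : pt ω w (rootW β) = ω w :=
  run_shiftR_root w.2 ω

/-- Multiplication by a letter on the right leaves a side only from the root. -/
theorem side_step (hβ : ∀ s, β (β s) = s) {a s : S} {w : RW β} (hw : w.1 ∈ Side β a)
    (hs : (rm β s w).1 ∉ Side β a) : w.1 = [] ∧ s = a := by
  have hR : Red β (rm β s w).1 := (rm β s w).2
  have hh : (rm β s w).1.head? = some a := by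
    by_contra h
    exact hs ⟨hR, h⟩
  obtain ⟨w, hw'⟩ := w
  change Red β w at hw'
  change w ∈ Side β a at hw
  change (red β (w ++ [s])).head? = some a at hh
  show w = [] ∧ s = a
  cases w with
  | nil =>
    have h1 : red β ([] ++ [s]) = [s] := red_of_Red (List.isChain_singleton _)
    rw [h1] at hh
    exact ⟨rfl, by simpa using hh⟩
  | cons b w =>
    exfalso
    have hb : b ≠ a := by
      have := hw.2
      simpa using this
    rcases List.eq_nil_or_concat (b :: w) with h | ⟨v, c, h⟩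
    · simp at h
    · rw [List.concat_eq_append] at h
      by_cases hc : c = β s
      · subst hc
        have h1 : red β (b :: w ++ [s]) = v := by
          rw [h, List.append_assoc, List.singleton_append, red_append, red_cancel hβ, red_nil,
            List.append_nil, red_of_Red]
          rw [h] at hw'
          exact hw'.left
        rw [h1] at hh
        cases v with
        | nil => simp at hh
        | cons b' v =>
          have h2 : b' = a := by simpa using hh
          have h3 : b = b' := by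
            simp only [List.cons_append, List.cons.injEq] at h
            exact h.1
          exact hb (h3.trans h2)
      · have h1 : Red β (b :: w ++ [s]) := by
          rw [h]
          rw [h] at hw'
          refine Red.append hw' (List.isChain_singleton _) ?_
          intro a' ha' b' hb'
          have e1 : c = a' := by simpa using ha'
          have e2 : s = b' := by simpa using hb'
          subst e1 e2
          intro e3
          apply hc
          rw [e3, hβ]
        rw [red_of_Red h1] at hh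
        exact hb (by simpa using hh)

end Tree

section Main

variable {S : Type} {β : S → S} {p : Bit → S} {δ : Bit}

/-- The straight word as an element. -/
noncomputable def W (hU : S_UW) (hF : Fr β p δ) (k : ℕ) (z : Bit) : RW β :=
  ⟨uw p δ k z, ((hU S β p δ hF).1 k z).1⟩

theorem bit_two (a : Bit) : a + a = 0 := by
  revert a
  decide

theorem bit_ne (a : Bit) : a + 1 ≠ a := by
  revert a
  decide

/-- One step from the straight word towards the root. -/
theorem step_back (hU : S_UW) (hF : Fr β p δ) (k : ℕ) (z : Bit) :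
    rm β (p (z + (k + 1 : ℕ) * δ)) (W hU hF (k + 1) (z + 1)) = W hU hF k (z + 1) := by
  apply Subtype.ext
  show red β (uw p δ (k + 1) (z + 1) ++ [p (z + (k + 1 : ℕ) * δ)]) = uw p δ k (z + 1)
  have h2 := (hU S β p δ hF).2.2.1 k (z + 1)
  have h3 : β (p (z + 1 + (k : Bit) * δ)) = p (z + (k + 1 : ℕ) * δ) := by
    rw [hF.bp]
    congr 1
    have h4 := bit_two (1 : Bit)
    push_cast
    linear_combination h4
  rw [h2, ← h3, List.append_assoc, List.singleton_append, red_append, red_cancel' hF.inv, red_nil,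
    List.append_nil, red_of_Red ((hU S β p δ hF).1 k (z + 1)).1]

/-- The walk towards the root. -/
theorem walk_back (hU : S_UW) (hF : Fr β p δ) (m k : ℕ) (z : Bit) :
    run (rm β) (uw p δ m (z + ((k + m : ℕ) : Bit) * δ)) (W hU hF (k + m) (z + 1)) =
      W hU hF k (z + 1) := by
  induction m with
  | zero =>
    have h1 : ∀ t, uw p δ 0 t = [] := fun t ↦ by
      have := ((hU S β p δ hF).1 0 t).2
      exact List.length_eq_zero_iff.1 this
    rw [h1]
    rfl
  | succ m ih =>
    rw [(hU S β p δ hF).2.1, run_cons]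
    have h1 := step_back hU hF (k + m) z
    have h2 : z + ((k + (m + 1) : ℕ) : Bit) * δ + δ = z + ((k + m : ℕ) : Bit) * δ := by
      have h4 := bit_two δ
      push_cast
      linear_combination h4
    rw [h2]
    have h3 : rm β (p (z + ((k + (m + 1) : ℕ) : Bit) * δ)) (W hU hF (k + (m + 1)) (z + 1)) =
        W hU hF (k + m) (z + 1) := h1
    rw [h3]
    exact ih

theorem uw_zero (hU : S_UW) (hF : Fr β p δ) (t : Bit) : uw p δ 0 t = [] :=
  List.length_eq_zero_iff.1 ((hU S β p δ hF).1 0 t).2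

theorem uw_snoc (hU : S_UW) (hF : Fr β p δ) (k : ℕ) (t : Bit) :
    uw p δ (k + 1) t = uw p δ k t ++ [p (t + (k : Bit) * δ)] :=
  (hU S β p δ hF).2.2.1 k t

/-- If the walk from `w` is at the root after `k` steps then `w` is a straight word. -/
theorem eq_W (hU : S_UW) (hF : Fr β p δ) {k : ℕ} {t z : Bit} {w : RW β}
    (h : (run (rm β) (uw p δ k t) w).1 = []) (ht : t + (k : Bit) * δ = z) :
    w = W hU hF k (z + 1) := by
  have h1 := run_invw (β := β) (f := rm β) (rm_inv hF.inv) (uw p δ k t) w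
  have h2 := (hU S β p δ hF).2.2.2.1 k t
  have h3 : t + 1 + (k : Bit) * δ = z + 1 := by rw [← ht]; ring
  rw [h2, h3] at h1
  rw [← h1]
  apply Subtype.ext
  rw [run_rm hF.inv, h, List.nil_append, red_of_Red ((hU S β p δ hF).1 k (z + 1)).1]
  rfl

theorem W_side (hU : S_UW) (hF : Fr β p δ) (k : ℕ) (z : Bit) :
    (W hU hF k (z + 1)).1 ∈ Side β (p z) := by
  refine ⟨(W hU hF k (z + 1)).2, ?_⟩
  show (uw p δ k (z + 1)).head? ≠ some (p z)
  cases k with
  | zero => rw [uw_zero hU hF]; simp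
  | succ k =>
    rw [(hU S β p δ hF).2.1]
    intro h
    have h1 : p (z + 1) = p z := by simpa using h
    exact bit_ne z (hF.inj h1)

theorem eq_time {t z δ : Bit} {k : ℕ} (ht : t + (k : Bit) * δ = z) : t = z + (k : Bit) * δ := by
  rw [← ht, add_assoc, bit_two, add_zero]

/-- The configuration seen from `w` in the direction `t` leads to the edge `(root, z)`. -/
def Bad (hU : S_UW) (hF : Fr β p δ) (M : RW β → Bool) (z : Bit) (w : RW β) (t : Bit) : Prop :=
  ∃ j : ℕ, w = W hU hF j (z + 1) ∧ t = z + (j : Bit) * δ ∧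
    ∀ i < j, M (W hU hF i (z + 1)) = false

/-- Otherwise the walk to the far end stays on the side. -/
theorem stay (hU : S_UW) (hF : Fr β p δ) {M : RW β → Bool} {z : Bit} {w : RW β} {t : Bit}
    (hw : w.1 ∈ Side β (p z)) (hB : ¬ Bad hU hF M z w t) :
    ∀ k ≤ kfar p δ (rm β) M w t, (run (rm β) (uw p δ k t) w).1 ∈ Side β (p z) := by
  intro k
  induction k with
  | zero =>
    intro _
    rw [uw_zero hU hF]
    exact hw
  | succ k ih =>
    intro hk
    by_contra hs
    have h1 := ih (by omega)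
    rw [uw_snoc hU hF, run_append] at hs
    obtain ⟨h2, h3⟩ := side_step hF.inv h1 hs
    have h4 : t + (k : Bit) * δ = z := hF.inj h3
    apply hB
    have hW := eq_W hU hF h2 h4
    refine ⟨k, hW, eq_time h4, fun i hi ↦ ?_⟩
    by_contra hM
    have hM' : M (W hU hF i (z + 1)) = true := by simpa using hM
    obtain ⟨m, rfl⟩ : ∃ m, k = i + m := ⟨k - i, by omega⟩
    have h5 := walk_back hU hF m i z
    rw [← hW, ← eq_time h4] at h5
    have h6 : kfar p δ (rm β) M w t ≤ m := by
      apply Nat.sInf_le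
      refine ⟨by omega, ?_⟩
      rw [h5]
      exact hM'
    omega

theorem kfar_spec {X : Type} {f : S → X → X} {M : X → Bool} {x : X} {t : Bit}
    (h : ∃ k, 1 ≤ k ∧ M (run f (uw p δ k t) x) = true) :
    1 ≤ kfar p δ f M x t ∧ M (run f (uw p δ (kfar p δ f M x t) t) x) = true :=
  Nat.sInf_mem (s := {k | 1 ≤ k ∧ M (run f (uw p δ k t) x) = true}) h

/-- The far ends agree. -/
theorem far_eq (hU : S_UW) (hF : Fr β p δ) {M M' : RW β → Bool} {z : Bit} {w : RW β} {t : Bit}
    (hM : ∀ w : RW β, w.1 ∈ Side β (p z) → M w = M' w)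
    (hw : w.1 ∈ Side β (p z)) (hB : ¬ Bad hU hF M z w t)
    (h : ∃ k, 1 ≤ k ∧ M (run (rm β) (uw p δ k t) w) = true) :
    kfar p δ (rm β) M' w t = kfar p δ (rm β) M w t ∧
      (pfar p δ (rm β) M w t).1 ∈ Side β (p z) := by
  have hs := stay hU hF hw hB
  obtain ⟨h1, h2⟩ := kfar_spec h
  refine ⟨?_, hs _ le_rfl⟩
  apply le_antisymm
  · apply Nat.sInf_le
    refine ⟨h1, ?_⟩
    rw [← hM _ (hs _ le_rfl)]
    exact h2
  · by_contra hlt
    push Not at hlt
    have h3 : ∃ k, 1 ≤ k ∧ M' (run (rm β) (uw p δ k t) w) = true :=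
      ⟨_, h1, by rw [← hM _ (hs _ le_rfl)]; exact h2⟩
    obtain ⟨h4, h5⟩ := kfar_spec h3
    rw [← hM _ (hs _ hlt.le)] at h5
    have h6 : kfar p δ (rm β) M w t ≤ kfar p δ (rm β) M' w t := Nat.sInf_le ⟨h4, h5⟩
    omega

/-- The bits on the way to the root. -/
theorem bit_back (hU : S_UW) (hT : S_BIT) (hF : Fr β p δ) {M : RW β → Bool}
    {V : RW β → unitInterval} {o : RW β → Bit → Bit} {z : Bit}
    (h : ∀ w : RW β, w.1 ∈ Side β (p z) → ∀ t : Bit,
      (∃ k, 1 ≤ k ∧ M (run (rm β) (uw p δ k t) w) = true) ∧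
      V (pfar p δ (rm β) M w t) ≠ V (pnear p δ (rm β) M w t)) (j : ℕ) :
    (∀ i < j, M (W hU hF i (z + 1)) = false) →
    bitAt p δ (rm β) M V o (W hU hF j (z + 1)) (z + (j : Bit) * δ) =
      bitAt p δ (rm β) M V o (W hU hF 0 (z + 1)) z + (j : Bit) * (δ + 1) := by
  induction j with
  | zero =>
    intro _
    simp
  | succ j ih =>
    intro hi
    have h1 := ih fun i hij ↦ hi i (by omega)
    have h2 := h (W hU hF (j + 1) (z + 1)) (W_side hU hF _ _)
    have h3 := (hT S (RW β) β p δ hF (rm β) (rm_inv hF.inv) M V o (W hU hF (j + 1) (z + 1))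
      (fun t ↦ (h2 t).1) (fun t ↦ (h2 t).2) (z + ((j + 1 : ℕ) : Bit) * δ)).2.2
    rw [step_back hU hF] at h3
    have h4 := h3 (hi j (by omega))
    have h5 : z + ((j + 1 : ℕ) : Bit) * δ + δ = z + (j : Bit) * δ := by
      have h4 := bit_two δ
      push_cast
      linear_combination h4
    rw [h5, h1] at h4
    have h6 := bit_two (δ + 1)
    push_cast at h4 ⊢
    linear_combination -h4 - h6

/-- The bits of a block that stays on the side. -/
theorem bit_stay (hU : S_UW) (hK : S_BLK) (hF : Fr β p δ) {M M' : RW β → Bool}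
    {V V' : RW β → unitInterval} {o o' : RW β → Bit → Bit} {z : Bit}
    (h : ∀ w : RW β, w.1 ∈ Side β (p z) → ∀ t : Bit,
      ∃ k, 1 ≤ k ∧ M (run (rm β) (uw p δ k t) w) = true)
    (hM : ∀ w : RW β, w.1 ∈ Side β (p z) → M w = M' w)
    (hV : ∀ w : RW β, w.1 ∈ Side β (p z) → V w = V' w)
    (ho : ∀ w : RW β, w.1 ∈ Side β (p z) → ∀ t, o w t = o' w t ∨
      (w = pnear p δ (rm β) M (rootW β) z ∧ t = snear p δ (rm β) M (rootW β) z))
    {w : RW β} {t : Bit} (hw : w.1 ∈ Side β (p z)) (hB : ¬ Bad hU hF M z w t)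
    (hB' : M w = false → ¬ Bad hU hF M z w (t + 1)) :
    bitAt p δ (rm β) M V o w t = bitAt p δ (rm β) M' V' o' w t := by
  have hroot : (rootW β).1 ∈ Side β (p z) := ⟨List.isChain_nil, by simp [rootW]⟩
  obtain ⟨e1, e2⟩ := far_eq hU hF hM hw hB (h w hw t)
  have e3 : pfar p δ (rm β) M' w t = pfar p δ (rm β) M w t := by
    unfold pfar
    rw [e1]
  have e4 : sfar p δ (rm β) M' w t = sfar p δ (rm β) M w t := by
    unfold sfar
    rw [e1]
  have hMw := hM w hw
  have hn : knear p δ (rm β) M' w t = knear p δ (rm β) M w t ∧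
      pnear p δ (rm β) M' w t = pnear p δ (rm β) M w t ∧
      snear p δ (rm β) M' w t = snear p δ (rm β) M w t ∧
      (pnear p δ (rm β) M w t).1 ∈ Side β (p z) := by
    unfold knear pnear snear
    rw [← hMw]
    by_cases hm : M w = true
    · simp only [hm, if_true]
      exact ⟨trivial, trivial, trivial, hw⟩
    · simp only [hm, Bool.false_eq_true, if_false]
      obtain ⟨f1, f2⟩ := far_eq hU hF hM hw (hB' (by simpa using hm)) (h w hw (t + 1))
      refine ⟨f1, ?_, ?_, f2⟩
      · unfold pfar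
        rw [f1]
      · unfold sfar
        rw [f1]
  obtain ⟨n1, n2, n3, n4⟩ := hn
  have b1 := (hK S (RW β) β p δ hF (rm β) (rm_inv hF.inv) M w (h w hw) t).2
  have b2 := (hK S (RW β) β p δ hF (rm β) (rm_inv hF.inv) M (rootW β) (h _ hroot) z).2
  have hout : (pfar p δ (rm β) M (rootW β) z).1 ∉ Side β (p z) := by
    obtain ⟨k1, -⟩ := kfar_spec (h _ hroot z)
    intro hc
    apply hc.2
    unfold pfar
    rw [run_rm hF.inv]
    obtain ⟨k, hk⟩ : ∃ k, kfar p δ (rm β) M (rootW β) z = k + 1 := ⟨_, (Nat.sub_add_cancel k1).symm⟩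
    rw [hk]
    show (red β ([] ++ uw p δ (k + 1) z)).head? = some (p z)
    rw [List.nil_append, red_of_Red ((hU S β p δ hF).1 (k + 1) z).1, (hU S β p δ hF).2.1]
    rfl
  have o1 : o (pfar p δ (rm β) M w t) (sfar p δ (rm β) M w t) =
      o' (pfar p δ (rm β) M w t) (sfar p δ (rm β) M w t) := by
    refine (ho _ e2 _).resolve_right ?_
    rintro ⟨c1, c2⟩
    have c3 := b1.2.2.1
    rw [c1, c2, b2.2.2.2.2.1] at c3
    exact hout (c3 ▸ n4)
  have o2 : o (pnear p δ (rm β) M w t) (snear p δ (rm β) M w t) =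
      o' (pnear p δ (rm β) M w t) (snear p δ (rm β) M w t) := by
    refine (ho _ n4 _).resolve_right ?_
    rintro ⟨c1, c2⟩
    have c3 := b1.2.2.2.2.1
    rw [c1, c2, b2.2.2.2.2.1] at c3
    exact hout (c3 ▸ e2)
  unfold bitAt
  rw [e3, n2, e4, n3, e1, n1, ← hV _ e2, ← hV _ n4, o1, o2]

/-- All the bits on the side agree. -/
theorem bit_side (hU : S_UW) (hK : S_BLK) (hT : S_BIT) (hF : Fr β p δ) {M M' : RW β → Bool}
    {V V' : RW β → unitInterval} {o o' : RW β → Bit → Bit} {z : Bit}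
    (h : ∀ w : RW β, w.1 ∈ Side β (p z) → ∀ t : Bit,
      (∃ k, 1 ≤ k ∧ M (run (rm β) (uw p δ k t) w) = true) ∧
      V (pfar p δ (rm β) M w t) ≠ V (pnear p δ (rm β) M w t))
    (h' : ∀ w : RW β, w.1 ∈ Side β (p z) → ∀ t : Bit,
      (∃ k, 1 ≤ k ∧ M' (run (rm β) (uw p δ k t) w) = true) ∧
      V' (pfar p δ (rm β) M' w t) ≠ V' (pnear p δ (rm β) M' w t))
    (hM : ∀ w : RW β, w.1 ∈ Side β (p z) → M w = M' w)
    (hV : ∀ w : RW β, w.1 ∈ Side β (p z) → V w = V' w)
    (ho : ∀ w : RW β, w.1 ∈ Side β (p z) → ∀ t, o w t = o' w t ∨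
      (w = pnear p δ (rm β) M (rootW β) z ∧ t = snear p δ (rm β) M (rootW β) z))
    (hz : bitAt p δ (rm β) M V o (rootW β) z = bitAt p δ (rm β) M' V' o' (rootW β) z)
    {w : RW β} (hw : w.1 ∈ Side β (p z)) (t : Bit) :
    bitAt p δ (rm β) M V o w t = bitAt p δ (rm β) M' V' o' w t := by
  have hW0 : W hU hF 0 (z + 1) = rootW β := Subtype.ext (uw_zero hU hF (z + 1))
  have bad : ∀ t, Bad hU hF M z w t →
      bitAt p δ (rm β) M V o w t = bitAt p δ (rm β) M' V' o' w t := by
    rintro t ⟨j, rfl, rfl, hj⟩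
    have hj' : ∀ i < j, M' (W hU hF i (z + 1)) = false := fun i hi ↦
      (hM _ (W_side hU hF i z)).symm.trans (hj i hi)
    rw [bit_back hU hT hF h j hj, bit_back hU hT hF h' j hj', hW0, hz]
  by_cases hB : Bad hU hF M z w t
  · exact bad t hB
  by_cases hB' : M w = false ∧ Bad hU hF M z w (t + 1)
  · obtain ⟨hm, hb⟩ := hB'
    have h1 := bad _ hb
    have h2 := (hT S (RW β) β p δ hF (rm β) (rm_inv hF.inv) M V o w (fun t ↦ (h w hw t).1)
      (fun t ↦ (h w hw t).2) t).2.1 hm
    have h3 := (hT S (RW β) β p δ hF (rm β) (rm_inv hF.inv) M' V' o' w (fun t ↦ (h' w hw t).1)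
      (fun t ↦ (h' w hw t).2) t).2.1 (by rw [← hM w hw, hm])
    rw [h2, h3] at h1
    exact add_right_cancel h1
  · exact bit_stay hU hK hF (fun w hw t ↦ (h w hw t).1) hM hV ho hw hB
      fun hm hb ↦ hB' ⟨hm, hb⟩

end Main

/-- **LOCB**. -/
theorem locb (hU : S_UW) (hK : S_BLK) (hT : S_BIT) : S_LOCB := by
  intro S β p δ hF z ω ω' M V o hlab hgood hz w hw
  have hroot : (rootW β).1 ∈ Side β (p z) := ⟨List.isChain_nil, by simp [rootW]⟩
  have hpt : ∀ (η : RW β → Lb3) (s : S) (v : RW β), pt η (rm β s v) = shiftR β s (pt η v) :=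
    fun η s v ↦ pt_rm hF.inv η s v
  have kM : ∀ (η : RW β → Lb3), (fun v : RW β ↦ M (pt η v)) = fun v ↦ (η v).1 := fun η ↦ by
    funext v
    show ((pt η v) (rootW β)).1 = _
    rw [pt_root]
  have kV : ∀ (η : RW β → Lb3), (fun v : RW β ↦ V (pt η v)) = fun v ↦ (η v).2.2.1 := fun η ↦ by
    funext v
    show ((pt η v) (rootW β)).2.2.1 = _
    rw [pt_root]
  have ko : ∀ (η : RW β → Lb3), (fun v : RW β ↦ o (pt η v)) = fun v ↦ (η v).2.2.2.2 := fun η ↦ by
    funext v
    show ((pt η v) (rootW β)).2.2.2.2 = _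
    rw [pt_root]
  have kb : ∀ (η : RW β → Lb3) (v : RW β) (t : Bit),
      bitAt p δ (shiftR β) M V o (pt η v) t = bitAt p δ (rm β) (fun v ↦ (η v).1)
        (fun v ↦ (η v).2.2.1) (fun v ↦ (η v).2.2.2.2) v t := fun η v t ↦ by
    rw [bitAt_nat (f := rm β) (hpt η), kM, kV, ko]
  have hg : ∀ η ∈ ({ω, ω'} : Set (RW β → Lb3)), ∀ v : RW β, v.1 ∈ Side β (p z) → ∀ t : Bit,
      (∃ k, 1 ≤ k ∧ (fun v : RW β ↦ (η v).1) (run (rm β) (uw p δ k t) v) = true) ∧
      (fun v : RW β ↦ (η v).2.2.1) (pfar p δ (rm β) (fun v ↦ (η v).1) v t) ≠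
        (fun v : RW β ↦ (η v).2.2.1) (pnear p δ (rm β) (fun v ↦ (η v).1) v t) := by
    intro η hη v hv t
    obtain ⟨⟨k, hk, h1⟩, h2⟩ := hgood v.1 hv t η hη
    rw [← kM, ← kV]
    refine ⟨⟨k, hk, ?_⟩, ?_⟩
    · show M (pt η (run (rm β) (uw p δ k t) v)) = true
      rw [run_equivariant (f' := shiftR β) (hpt η)]
      exact h1
    · show V (pt η (pfar p δ (rm β) (fun v ↦ M (pt η v)) v t)) ≠
        V (pt η (pnear p δ (rm β) (fun v ↦ M (pt η v)) v t))
      rw [← pfar_nat (hpt η)]
      have e : pt η (pnear p δ (rm β) (fun v ↦ M (pt η v)) v t) =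
          pnear p δ (shiftR β) M (pt η v) t := by
        unfold pnear
        by_cases hm : M (pt η v) = true
        · simp only [hm, if_true]
        · simp only [hm, Bool.false_eq_true, if_false]
          rw [← pfar_nat (hpt η)]
      rw [e]
      exact h2
  have r0 : ∀ η : RW β → Lb3, pt η (rootW β) = η := fun η ↦ rfl
  have hnw : (pnear p δ (rm β) (fun v ↦ (ω v).1) (rootW β) z).1 = nearWord β p δ ω z := by
    unfold pnear nearWord
    by_cases hm : (ω (rootW β)).1 = true
    · simp only [hm, if_true]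
      rfl
    · simp only [hm, Bool.false_eq_true, if_false]
      unfold pfar
      rw [run_rm hF.inv]
      have h1 := kfar_nat (p := p) (δ := δ) (f := rm β) (hpt ω) M (rootW β) (z + 1)
      rw [kM, r0] at h1
      show red β ([] ++ _) = _
      rw [List.nil_append, ← h1, red_of_Red ((hU S β p δ hF).1 _ _).1]
  have hsn : snear p δ (rm β) (fun v ↦ (ω v).1) (rootW β) z = snear p δ (shiftR β) M ω z := by
    have h1 := snear_nat (p := p) (δ := δ) (f := rm β) (hpt ω) M (rootW β) z
    rw [kM, r0] at h1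
    exact h1.symm
  have key : ∀ t : Bit, bitAt p δ (shiftR β) M V o (pt ω ⟨w, hw.1⟩) t =
      bitAt p δ (shiftR β) M V o (pt ω' ⟨w, hw.1⟩) t := by
    intro t
    rw [kb, kb]
    refine bit_side hU hK hT hF (hg ω (by simp)) (hg ω' (by simp)) (fun v hv ↦ (hlab v hv).1)
      (fun v hv ↦ (hlab v hv).2.2.1) (fun v hv t ↦ ?_) ?_ hw t
    · refine ((hlab v hv).2.2.2.2 t).imp_right fun h ↦ ⟨Subtype.ext ?_, ?_⟩
      · rw [hnw]
        exact h.1
      · rw [hsn]
        exact h.2
    · rw [← kb, ← kb, r0, r0]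
      exact hz
  have e1 := pt_root ω ⟨w, hw.1⟩
  have e2 := pt_root ω' ⟨w, hw.1⟩
  obtain ⟨l1, l2, l3, l4, -⟩ := hlab ⟨w, hw.1⟩ hw
  have q1 : ((pt ω ⟨w, hw.1⟩) (rootW β)).1 = ((pt ω' ⟨w, hw.1⟩) (rootW β)).1 := by
    rw [e1, e2]
    exact l1
  have q2 : ((pt ω ⟨w, hw.1⟩) (rootW β)).2.1 = ((pt ω' ⟨w, hw.1⟩) (rootW β)).2.1 := by
    rw [e1, e2]
    exact l2
  have q3 : ((pt ω ⟨w, hw.1⟩) (rootW β)).2.2.1 = ((pt ω' ⟨w, hw.1⟩) (rootW β)).2.2.1 := by
    rw [e1, e2]
    exact l3
  have q4 : ((pt ω ⟨w, hw.1⟩) (rootW β)).2.2.2.1 = ((pt ω' ⟨w, hw.1⟩) (rootW β)).2.2.2.1 := by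
    rw [e1, e2]
    exact l4
  show S3 p δ (shiftR β) (fun ω : RW β → Lb3 => ω (rootW β)) (pt ω ⟨w, hw.1⟩) =
    S3 p δ (shiftR β) (fun ω : RW β → Lb3 => ω (rootW β)) (pt ω' ⟨w, hw.1⟩)
  unfold S3
  simp only
  rw [q1, q2, q3, q4]
  have kk : ∀ z', bitAt p δ (shiftR β) (fun y : RW β → Lb3 ↦ (y (rootW β)).1)
      (fun y ↦ (y (rootW β)).2.2.1) (fun y ↦ (y (rootW β)).2.2.2.2) (pt ω ⟨w, hw.1⟩) z' =
      bitAt p δ (shiftR β) (fun y : RW β → Lb3 ↦ (y (rootW β)).1)
      (fun y ↦ (y (rootW β)).2.2.1) (fun y ↦ (y (rootW β)).2.2.2.2) (pt ω' ⟨w, hw.1⟩) z' := key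
  simp only [kk]

end Pool.Agent.Helper58.OB
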