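import Pool.Agent.Helper70.OB.Goals
import Pool.Agent.Helper67.MaxMeas.PD

/-!
Packet OB-ROTD: a rotation invariant finite measure is determined by the masses of balls.
-/

open MeasureTheory Set Metric Filter
open scoped ENNReal Topology
open _root_.Pool.Agent.Results.MP_91ee6f_gt

namespace Pool.Agent.Helper58.OB

/-- The potential of a rotation invariant measure is rotation invariant. -/
lemma potential_inv {n : ℕ} (w : Measure (En n)) (g : En n ≃ₗᵢ[ℝ] En n)
    (hg : w.map g = w) (x : En n) : potential w (g x) = potential w x := by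
  unfold potential
  have hme : MeasurableEmbedding (g : En n → En n) := g.toHomeomorph.measurableEmbedding
  conv_lhs => rw [← hg]
  rw [hme.integral_map]
  refine integral_congr_ae (Filter.Eventually.of_forall fun y => ?_)
  simp only [LinearIsometryEquiv.dist_map]

/-- The potential of a measure invariant under all rotations is radial. -/
lemma potential_rad {n : ℕ} (w : Measure (En n))
    (hw : ∀ g : En n ≃ₗᵢ[ℝ] En n, w.map g = w) (x x' : En n) (h : ‖x‖ = ‖x'‖) :
    potential w x = potential w x' := by
  have hr := Submodule.reflection_sub h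
  rw [← hr]
  exact (potential_inv w _ (hw _) x).symm

lemma cont_pot {n : ℕ} (μ : Measure (En n)) [IsFiniteMeasure μ] : Continuous (potential μ) := by
  unfold potential
  refine continuous_of_dominated (bound := fun _ => (1 : ℝ)) (fun x => ?_) (fun x => ?_)
    (integrable_const _) ?_
  · exact (by fun_prop : Continuous fun y : En n => Real.exp (-dist x y)).aestronglyMeasurable
  · refine Eventually.of_forall fun y => ?_
    rw [Real.norm_eq_abs, abs_of_pos (Real.exp_pos _), Real.exp_le_one_iff]
    simp
  · exact Eventually.of_forall fun y => by fun_prop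

/-- The laws of the norm agree. -/
lemma map_norm_eq {n : ℕ} (μ ν : Measure (En n)) [IsFiniteMeasure μ] [IsFiniteMeasure ν]
    (h : ∀ t : ℝ, 0 < t → μ (ball 0 t) = ν (ball 0 t)) :
    μ.map (fun x => ‖x‖) = ν.map (fun x => ‖x‖) := by
  have key : ∀ (ρ : Measure (En n)) (t : ℝ),
      ρ.map (fun x => ‖x‖) (Iio t) = ρ (ball 0 t) := by
    intro ρ t
    rw [Measure.map_apply measurable_norm measurableSet_Iio]
    congr 1
    ext x
    simp
  have huniv : μ univ = ν univ := by
    have e : (univ : Set (En n)) = ⋃ k : ℕ, ball (0 : En n) ((k : ℝ) + 1) := by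
      ext x
      simp only [mem_univ, mem_iUnion, mem_ball_zero_iff, true_iff]
      obtain ⟨k, hk⟩ := exists_nat_gt ‖x‖
      exact ⟨k, by linarith⟩
    have hm : Monotone fun k : ℕ => ball (0 : En n) ((k : ℝ) + 1) := by
      intro a b hab
      apply ball_subset_ball
      have : (a : ℝ) ≤ b := by exact_mod_cast hab
      linarith
    rw [e, hm.measure_iUnion, hm.measure_iUnion]
    congr 1
    ext k
    exact h _ (by positivity)
  refine MeasureTheory.ext_of_generate_finite (range Iio) (borel_eq_generateFrom_Iio ℝ ▸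
    (BorelSpace.measurable_eq (α := ℝ))) isPiSystem_Iio ?_ ?_
  · rintro _ ⟨t, rfl⟩
    rw [key, key]
    rcases lt_or_ge 0 t with ht | ht
    · exact h t ht
    · simp [ball_eq_empty.2 ht]
  · rw [Measure.map_apply measurable_norm MeasurableSet.univ,
      Measure.map_apply measurable_norm MeasurableSet.univ]
    simpa using huniv

theorem rotd : _root_.Pool.Agent.Helper70.OB.ROTD := by
  intro n hn μ ν hμ hν rμ rν h
  haveI := hμ
  haveI := hν
  haveI : Nonempty (Fin n) := ⟨⟨0, hn⟩⟩
  obtain ⟨e, he⟩ : ∃ e : En n, ‖e‖ = 1 := by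
    obtain ⟨e, he⟩ := exists_norm_eq (En n) (zero_le_one (α := ℝ))
    exact ⟨e, he⟩
  have hmap := map_norm_eq μ ν h
  have key : ∀ w : Measure (En n), IsFiniteMeasure w → (∀ g : En n ≃ₗᵢ[ℝ] En n, w.map g = w) →
      ∫ x, potential w x ∂μ = ∫ x, potential w x ∂ν := by
    intro w hw hr
    haveI := hw
    have e1 : ∀ x : En n, potential w x = potential w (‖x‖ • e) := fun x =>
      potential_rad w hr _ _ (by rw [norm_smul, he, mul_one, norm_norm])
    have hc : Continuous fun r : ℝ => potential w (r • e) :=
      (cont_pot w).comp (by fun_prop)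
    have e2 : ∀ ρ : Measure (En n), ∫ x, potential w x ∂ρ =
        ∫ r, potential w (r • e) ∂(ρ.map (fun x => ‖x‖)) := by
      intro ρ
      rw [integral_map (by fun_prop) hc.aestronglyMeasurable]
      exact integral_congr_ae (Eventually.of_forall e1)
    rw [e2 μ, e2 ν, hmap]
  refine _root_.Pool.Agent.Helper67.MaxMeas.eq_of_bil_sub_eq_zero μ ν ?_
  have b1 : _root_.Pool.Agent.Helper67.MaxMeas.bil μ μ =
      _root_.Pool.Agent.Helper67.MaxMeas.bil ν μ := key μ hμ rμ
  have b2 : _root_.Pool.Agent.Helper67.MaxMeas.bil μ ν =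
      _root_.Pool.Agent.Helper67.MaxMeas.bil ν ν := key ν hν rν
  rw [b1, b2]
  ring

end Pool.Agent.Helper58.OB
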